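import Mathlib

namespace Pool.Agent.Results.MP_22519f_co.TwoTriangles

open Finset

section
variable {V : Type} (D : V → V → Prop)

/-- the game (D, g, h) is winnable -/
def Winnable (g h : V → ℕ) : Prop :=
  ∃ st : V → (V → ℕ) → Finset ℕ, (∀ v c c', (∀ u, D v u → c u = c' u) → st v c = st v c') ∧
    (∀ v c, st v c ⊆ range (h v) ∧ (st v c).card = g v) ∧
    ∀ c : V → ℕ, (∀ v, c v < h v) → ∃ v, c v ∈ st v c

/-- redundant sets -/
def Redundant (S : Set V) : Prop :=
  ∀ w, (∃ v ∈ S, D v w) → ∀ u, (∃ v ∈ S, D u v) → D u w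

/-- the fractional hat guessing number -/
noncomputable def muHat : ENNReal :=
  ⨆ (s : ℕ) (m : ℕ) (_ : 1 ≤ s ∧ s < m ∧ Winnable D (fun _ => s) fun _ => m), (m : ENNReal) / s
end

def E (u v : Fin 5) : Prop := (u, v) ∈ [(0, 1), (1, 2), (2, 0), (0, 3), (3, 4), (4, 0)]

instance : DecidableRel E := fun _ _ => inferInstanceAs (Decidable (_ ∈ _))

lemma good (s m : ℕ) (hm : 2 * s < m) (A : ℕ → Finset ℕ) (hA : ∀ y, (A y).card = s) :
    ∃ a < m, ∀ B : Finset ℕ, B.card = s → ∃ y < m, y ∉ B ∧ a ∉ A y := by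
  by_contra h
  push Not at h
  have := card_mul_le_card_mul (s := range m) (t := range m) (fun a y => a ∈ A y)
    (m := s + 1) (n := s) (fun a ha => ?_) fun y _ => ?_
  · simp only [card_range] at this
    nlinarith
  · obtain ⟨B, hB, h⟩ := h a (mem_range.mp ha)
    have h1 : range m \ B ⊆ bipartiteAbove (fun a y => a ∈ A y) (range m) a := fun y hy => by
      simp only [mem_sdiff, mem_range, mem_bipartiteAbove] at hy ⊢
      exact ⟨hy.1, h y hy.1 hy.2⟩
    have h2 := le_card_sdiff B (range m)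
    have := card_le_card h1
    rw [card_range] at h2
    omega
  · exact hA y ▸ card_le_card fun a ha => (mem_filter.mp ha).2

lemma bound (s m : ℕ) (h : Winnable E (fun _ => s) fun _ => m) : m ≤ 2 * s := by
  by_contra hm
  obtain ⟨st, h1, h2, h3⟩ := h
  obtain ⟨a, ha, pa⟩ := good s m (by omega) (fun y => st 1 fun _ => y) fun _ => (h2 _ _).2
  obtain ⟨c, hc, pc⟩ := good s m (by omega) (fun y => st 3 fun _ => y) fun _ => (h2 _ _).2
  obtain ⟨x, hx, px⟩ := exists_mem_notMem_of_card_lt_card (s := st 0 ![0, a, 0, c, 0])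
    (t := range m) (by rw [(h2 _ _).2, card_range]; show s < m; omega)
  rw [mem_range] at hx
  obtain ⟨b, hb, pb, qb⟩ := pa (st 2 fun _ => x) (h2 _ _).2
  obtain ⟨d, hd, pd, qd⟩ := pc (st 4 fun _ => x) (h2 _ _).2
  obtain ⟨v, hv⟩ := h3 ![x, a, b, c, d] fun v => by fin_cases v <;> simpa using ‹_›
  have k : ∀ (v : Fin 5) (c' : Fin 5 → ℕ), ![x, a, b, c, d] v ∉ st v c' →
      (∀ u, E v u → ![x, a, b, c, d] u = c' u) → ![x, a, b, c, d] v ∉ st v ![x, a, b, c, d] :=
    fun v c' h e => h1 v _ _ e ▸ h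
  revert hv
  fin_cases v
  · exact k 0 _ px fun u hu => by fin_cases u <;> first | rfl | exact absurd hu (by decide)
  · exact k 1 _ qb fun u hu => by fin_cases u <;> first | rfl | exact absurd hu (by decide)
  · exact k 2 _ pb fun u hu => by fin_cases u <;> first | rfl | exact absurd hu (by decide)
  · exact k 3 _ qd fun u hu => by fin_cases u <;> first | rfl | exact absurd hu (by decide)
  · exact k 4 _ pd fun u hu => by fin_cases u <;> first | rfl | exact absurd hu (by decide)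

/-- A winnable Latvian game with h ≥ 2, h ≠ 2 on a digraph of fractional number at most 2. -/
theorem result : ∃ (D : Fin 5 → Fin 5 → Prop) (h : Fin 5 → ℕ), (∀ v, ¬ D v v) ∧
    (∀ u v, Relation.ReflTransGen D u v) ∧ (∀ S, Redundant D S → S = ∅) ∧
    (∃ u v, u ≠ v ∧ ¬ D u v) ∧ (∀ v, 2 ≤ h v) ∧ h ≠ (fun _ => 2) ∧
    Winnable D (fun _ => 1) h ∧ muHat D ≤ 2 := by
  refine ⟨E, ![4, 2, 2, 2, 2], by decide, fun u v => ?_, fun S hS => ?_, ⟨1, 0, by decide, by decide⟩,
    by decide, by decide, ⟨fun v c => {(![2 * (c 1 % 2) + c 3 % 2, c 2 % 2, c 0 / 2 % 2, c 4 % 2,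
      c 0 % 2] : Fin 5 → ℕ) v}, fun v c c' h => ?_, fun v c => ⟨?_, rfl⟩, fun c hc => ?_⟩, ?_⟩
  · have s : ∀ {a b}, E a b → Relation.ReflTransGen E a b := Relation.ReflTransGen.single
    have h0 : ∀ u, Relation.ReflTransGen E u 0 ∧ Relation.ReflTransGen E 0 u := fun u => by
      fin_cases u
      · exact ⟨.refl, .refl⟩
      · exact ⟨(s (b := 2) (by decide)).tail (by decide), s (by decide)⟩
      · exact ⟨s (by decide), (s (b := 1) (by decide)).tail (by decide)⟩
      · exact ⟨(s (b := 4) (by decide)).tail (by decide), s (by decide)⟩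
      · exact ⟨s (by decide), (s (b := 3) (by decide)).tail (by decide)⟩
    exact (h0 u).1.trans (h0 v).2
  · refine Set.eq_empty_of_forall_notMem fun v hv => ?_
    obtain ⟨u, w, h1, h2, h3⟩ : ∃ u w, E u v ∧ E v w ∧ ¬ E u w := by clear hv; revert v; decide
    exact h3 (hS w ⟨v, hv, h2⟩ u ⟨v, hv, h1⟩)
  · fin_cases v
    · simp [h 1 (by decide), h 3 (by decide)]
    · simp [h 2 (by decide)]
    · simp [h 0 (by decide)]
    · simp [h 4 (by decide)]
    · simp [h 0 (by decide)]
  · fin_cases v <;> simp <;> omega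
  · have h0 := hc 0
    have h1 := hc 1
    have h2 := hc 2
    have h3 := hc 3
    have h4 := hc 4
    simp [Fin.exists_fin_succ] at *
    omega
  · refine iSup_le fun s => iSup_le fun m => iSup_le fun h => ENNReal.div_le_of_le_mul ?_
    exact_mod_cast bound s m h.2.2

end Pool.Agent.Results.MP_22519f_co.TwoTriangles
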